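import Mathlib
import Pool.Agent.Q280.Orb.Pos
set_option autoImplicit false

/-! The largest real root of an orbital chromatic polynomial can exceed the largest real
chromatic root of the graph by an arbitrarily large amount. -/

namespace Pool.Agent.Results.MP_fefe6a_co.UnboundedSpread
open Polynomial Pool.Agent.Q280.Orb

theorem sum_units (F : ℤˣ → ℝ) : ∑ h : ℤˣ, F h = F 1 + F (-1) := by
  have h : (Finset.univ : Finset ℤˣ) = {1, -1} := rfl
  rw [h, Finset.sum_pair (by decide)]

theorem result : ∀ N : ℝ, ∃ (V : Type) (_ : Fintype V) (Γ : SimpleGraph V) (G : Subgroup (Γ ≃g Γ))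
    (p o : ℝ[X]) (lam r : ℝ), Nonempty V ∧ IsChrom Γ p ∧ IsOrbChrom Γ G o ∧
      IsGreatest {x : ℝ | p.eval x = 0} lam ∧ o.eval r = 0 ∧ lam + N ≤ r := by
  classical
  intro N
  obtain ⟨L, hL⟩ := exists_nat_ge (max 2 (N + 2))
  have hL1 : (2 : ℝ) ≤ L := (le_max_left _ _).trans hL
  have hLN : N + 2 ≤ L := (le_max_right _ _).trans hL
  have hL2 : 2 ≤ L := by exact_mod_cast hL1
  obtain ⟨M, hM, hpos⟩ := pos_core L (by omega)
  set m : ℕ := 2 * L + 2 with hm
  have hmR : (m : ℝ) = 2 * L + 2 := by rw [hm]; push_cast; ring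
  set x0 : ℝ := (m : ℝ) - 3 / 2 with hx0
  have hx0pos : 0 < x0 := by rw [hx0, hmR]; linarith
  -- the falling factorial is negative at `x0`
  have hdesc : (descPochhammer ℝ m).eval x0 < 0 := by
    rw [descPochhammer_eval_eq_prod_range, show m = (2 * L + 1) + 1 by omega, Finset.prod_range_succ]
    refine mul_neg_of_pos_of_neg (Finset.prod_pos fun j hj => ?_) ?_
    · have h1 : (j : ℝ) ≤ 2 * L := by
        have := Finset.mem_range.1 hj
        exact_mod_cast (by omega : j ≤ 2 * L)
      rw [hx0, hmR]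
      linarith
    · rw [hx0, hmR]
      push_cast
      linarith
  set pt : ℝ[X] := descPochhammer ℝ m * (X - C (m : ℝ)) ^ M with hpt
  have hptneg : pt.eval x0 < 0 := by
    rw [hpt, eval_mul]
    refine mul_neg_of_neg_of_pos hdesc ?_
    simp only [eval_pow, eval_sub, eval_X, eval_C]
    refine hM.pow_pos ?_
    rw [hx0]
    intro h
    linarith
  have hP0pos : 0 < (P0 m M).eval x0 := hpos x0 (by rw [hx0, hmR]; linarith)
  have hS1 : 0 < (SP m 1).eval x0 := SP_pos hx0pos
  have hS2 : (SP m 1).eval x0 < (SP m (-1)).eval x0 := SP_lt hdesc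
  -- choice of the number of blocks
  obtain ⟨R, hR⟩ := pow_unbounded_of_one_lt ((P0 m M).eval x0 / (-pt.eval x0))
    ((one_lt_div hS1).2 hS2)
  have hRpos : 0 < R + 1 := Nat.succ_pos R
  have hkey : (P0 m M).eval x0 * ((SP m 1).eval x0) ^ (R + 1) +
      pt.eval x0 * ((SP m (-1)).eval x0) ^ (R + 1) < 0 := by
    have h1 : (1:ℝ) ≤ (SP m (-1)).eval x0 / (SP m 1).eval x0 := ((one_lt_div hS1).2 hS2).le
    have h2 : (P0 m M).eval x0 / (-pt.eval x0) < ((SP m (-1)).eval x0 / (SP m 1).eval x0) ^ (R + 1) :=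
      hR.trans_le (pow_le_pow_right₀ h1 (Nat.le_succ R))
    rw [div_pow, div_lt_div_iff₀ (by linarith) (by positivity)] at h2
    linarith
  -- the graph and the group
  set Γ := Big (Core m M) (R + 1) m with hΓ
  set G := GG (Core m M) (tau (m := m) (M := M)) tau_tau tau_adj (R + 1) m with hG
  set κ : ℝ := (Nat.card (KK (R + 1) m) : ℝ) with hκ
  have hκ0 : 0 < κ := by
    rw [hκ]
    exact_mod_cast Nat.card_pos
  set p : ℝ[X] := P0 m M * X ^ ((R + 1) * m) with hp
  set o : ℝ[X] := C (1 / κ) * (P0 m M * (SP m 1) ^ (R + 1) + pt * (SP m (-1)) ^ (R + 1)) with ho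
  have hchrom : IsChrom Γ p := by
    intro q _
    have e : FixC (Core m M) (tau (m := m) (M := M)) (R + 1) m q 1 ≃ Col Γ q :=
      { toFun := fun c => c.1
        invFun := fun c => ⟨c, fun v => by rw [pm_one]⟩
        left_inv := fun c => rfl
        right_inv := fun c => rfl }
    have e0 : Fix0 (Core m M) (tau (m := m) (M := M)) q 1 ≃ Col (Core m M) q :=
      { toFun := fun c => c.1
        invFun := fun c => ⟨c, fun v => rfl⟩
        left_inv := fun c => rfl
        right_inv := fun c => rfl }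
    have e1 : FixF (1 : Equiv.Perm (Fin m)) q ≃ (Fin m → Fin q) :=
      { toFun := fun c => c.1
        invFun := fun c => ⟨c, fun v => rfl⟩
        left_inv := fun c => rfl
        right_inv := fun c => rfl }
    have h1 := card_FixC (Core m M) (tau (m := m) (M := M)) (R + 1) m q 1
    rw [Nat.card_congr e] at h1
    rw [h1]
    have h2 : Nat.card (Fix0 (Core m M) (tau (m := m) (M := M)) q
        (1 : ℤˣ × (Fin (R + 1) → Equiv.Perm (Fin m))).1) = Nat.card (Col (Core m M) q) :=
      Nat.card_congr e0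
    have h3 : ∀ i : Fin (R + 1), Nat.card (FixF
        ((1 : ℤˣ × (Fin (R + 1) → Equiv.Perm (Fin m))).2 i) q) = q ^ m := by
      intro i
      refine (Nat.card_congr e1).trans ?_
      rw [Nat.card_fun, Nat.card_eq_fintype_card, Fintype.card_fin, Nat.card_eq_fintype_card,
        Fintype.card_fin]
    rw [h2, Finset.prod_congr rfl fun i _ => h3 i, Finset.prod_const, Finset.card_univ,
      Fintype.card_fin, hp, eval_mul, eval_pow, eval_X, P0_nat]
    push_cast
    rw [← pow_mul, mul_comm m]
  have horb : IsOrbChrom Γ G o := by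
    intro q _
    have h1 := orbit_card (Core m M) (tau (m := m) (M := M)) tau_tau tau_adj (R + 1) m q
    rw [sum_units, card_tau] at h1
    have e0 : Fix0 (Core m M) (tau (m := m) (M := M)) q 1 ≃ Col (Core m M) q :=
      { toFun := fun c => c.1
        invFun := fun c => ⟨c, fun v => rfl⟩
        left_inv := fun c => rfl
        right_inv := fun c => rfl }
    rw [Nat.card_congr e0, ← P0_nat] at h1
    rw [ho, eval_mul, eval_C, eval_add, eval_mul, eval_mul, eval_pow, eval_pow, ← h1]
    field_simp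
    exact mul_comm _ _
  have hp0 : p ≠ 0 := by
    intro h
    have h1 := congrArg (eval x0) h
    rw [hp, eval_mul, eval_pow, eval_X, eval_zero] at h1
    have h2 : 0 < (P0 m M).eval x0 * x0 ^ ((R + 1) * m) := by positivity
    linarith
  have hroot0 : p.eval 0 = 0 := by
    rw [hp, eval_mul, eval_pow, eval_X, zero_pow, mul_zero]
    have : 0 < m := by omega
    positivity
  have hne : p.roots.toFinset.Nonempty :=
    ⟨0, by rw [Multiset.mem_toFinset, mem_roots hp0]; exact hroot0⟩
  have hset : (↑p.roots.toFinset : Set ℝ) = {x : ℝ | p.eval x = 0} := by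
    ext x
    rw [Finset.mem_coe, Multiset.mem_toFinset, mem_roots hp0]
    rfl
  have hgreat : IsGreatest {x : ℝ | p.eval x = 0} (p.roots.toFinset.max' hne) := by
    rw [← hset]
    exact Finset.isGreatest_max' _ hne
  have hlam : p.roots.toFinset.max' hne ≤ x0 - N := by
    have h1 : p.eval (p.roots.toFinset.max' hne) = 0 := hgreat.1
    by_contra hcon
    push Not at hcon
    set l := p.roots.toFinset.max' hne with hl
    have h2 : (L : ℝ) + 2 ≤ l := by
      have : (L : ℝ) + 2 ≤ x0 - N := by
        rw [hx0, hmR]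
        linarith
      linarith
    have h3 := hpos l h2
    have h4 : 0 < l := by linarith
    rw [hp, eval_mul, eval_pow, eval_X] at h1
    have h5 : 0 < (P0 m M).eval l * l ^ ((R + 1) * m) := by positivity
    linarith
  -- a root of the orbital polynomial beyond `x0`
  have hneg : o.eval x0 < 0 := by
    rw [ho, eval_mul, eval_C, eval_add, eval_mul, eval_mul, eval_pow, eval_pow]
    exact mul_neg_of_pos_of_neg (by positivity) hkey
  have hnn : 0 ≤ o.eval (m : ℝ) := by
    rw [horb m (by omega)]
    exact Nat.cast_nonneg _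
  have hle : x0 ≤ (m : ℝ) := by rw [hx0]; linarith
  obtain ⟨r, hr, hr0⟩ := intermediate_value_Icc hle (o.continuous.continuousOn (s := Set.Icc x0 (m:ℝ)))
    ⟨hneg.le, hnn⟩
  refine ⟨_, inferInstance, Γ, G, p, o, p.roots.toFinset.max' hne, r,
    ⟨Sum.inl (true, Sum.inl ⟨0, by omega⟩)⟩, hchrom, horb, hgreat, hr0, ?_⟩
  linarith [hr.1]

end Pool.Agent.Results.MP_fefe6a_co.UnboundedSpread
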